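import Pool.Agent.Q169.PT.Fin2
import Pool.Agent.Q169.PT.Rel
import Pool.Agent.Q169.PT.Br

/-!
# Tempered cocycles: the family of the maximal nonamenable subgroups on which a cocycle is bounded
-/

set_option autoImplicit false

namespace Pool.Agent.L7h76.PT

open Pool.Agent.H919R4.ZS (L2 lregL)
open Pool.Agent.Q169.PT (Rep IsCoc Van1 Amen Tempered reg)
open Pool.Agent.Q169.PT.Pub (Amenable RelativeT PropertyT)
open Pool.Agent.Q169.PT.Re (gap T T_apply rel_T sum_avg avg no_inv)
open Pool.Agent.Q38.PT.Ka (inv_mul_cancel_apply mul_inv_cancel_apply coc_one coc_inv coc_norm)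

/-! ### amenability passes to subgroups -/

/-- a group which embeds into an amenable group is amenable -/
theorem amenable_of_inj {N S : Type} [Group N] [Group S] (φ : N →* S) (hφ : Function.Injective φ)
    (h : Amenable S) : Amenable N := by
  classical
  intro A ε hε
  obtain ⟨F, hF, hb⟩ := h (A.image φ) (ε / (A.card + 1)) (by positivity)
  let c : S → Quotient (QuotientGroup.rightRel φ.range) := fun x => Quotient.mk _ x
  have hc : ∀ x y : S, c x = c y ↔ ∃ n, φ n * x = y := by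
    intro x y
    have h1 : c x = c y ↔ y * x⁻¹ ∈ φ.range := by
      change (Quotient.mk (QuotientGroup.rightRel φ.range) x = Quotient.mk _ y) ↔ _
      rw [Quotient.eq, QuotientGroup.rightRel_apply]
    rw [h1]
    constructor
    · rintro ⟨n, hn⟩
      exact ⟨n, by rw [hn]; group⟩
    · rintro ⟨n, hn⟩
      exact ⟨n, by rw [← hn]; group⟩
  -- the boundaries
  have hF0 : (0 : ℝ) < F.card := by exact_mod_cast hF.card_pos
  have hB : ∀ s ∈ A, ((F.filter fun x => φ s * x ∉ F).card : ℝ) ≤ ε / (A.card + 1) * F.card := by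
    intro s hs
    have h1 := hb (φ s) (Finset.mem_image_of_mem _ hs)
    have h2 : {x | x ∈ F ∧ φ s * x ∉ F} = ((F.filter fun x => φ s * x ∉ F : Finset S) : Set S) := by
      ext x
      simp
    rwa [h2, Set.ncard_coe_finset] at h1
  have hsum : ∑ s ∈ A, ((F.filter fun x => φ s * x ∉ F).card : ℝ) < ε * F.card := by
    calc ∑ s ∈ A, ((F.filter fun x => φ s * x ∉ F).card : ℝ)
        ≤ ∑ _s ∈ A, ε / (A.card + 1) * F.card := Finset.sum_le_sum hB
      _ = (A.card / (A.card + 1)) * (ε * F.card) := by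
          rw [Finset.sum_const, nsmul_eq_mul]
          ring
      _ < 1 * (ε * F.card) := by
          apply mul_lt_mul_of_pos_right _ (by positivity)
          rw [div_lt_one (by positivity)]
          linarith
      _ = ε * F.card := one_mul _
  -- decomposition into cosets
  have e1 : ∀ E : Finset S, E ⊆ F → (E.card : ℝ) = ∑ q ∈ F.image c, ((E.filter fun x => c x = q).card : ℝ) := by
    intro E hE
    have := Finset.card_eq_sum_card_fiberwise (s := E) (t := F.image c) (f := c)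
      (fun x hx => Finset.mem_image_of_mem _ (hE hx))
    exact_mod_cast this
  have hlt : ∑ q ∈ F.image c, ∑ s ∈ A, (((F.filter fun x => φ s * x ∉ F).filter fun x => c x = q).card : ℝ) <
      ∑ q ∈ F.image c, ε * ((F.filter fun x => c x = q).card : ℝ) := by
    rw [Finset.sum_comm, ← Finset.mul_sum, ← e1 F (Finset.Subset.refl _)]
    refine lt_of_le_of_lt (le_of_eq ?_) hsum
    refine Finset.sum_congr rfl fun s _ => ?_
    rw [← e1 _ (Finset.filter_subset _ _)]
  obtain ⟨q, hq, hlt⟩ := Finset.exists_lt_of_sum_lt hlt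
  obtain ⟨x0, hx0, rfl⟩ := Finset.mem_image.1 hq
  have hinj : Function.Injective fun n : N => φ n * x0 := by
    intro n m hnm
    exact hφ (mul_right_cancel hnm)
  set F' : Finset N := F.preimage (fun n => φ n * x0) hinj.injOn with hF'
  have hmem : ∀ n, n ∈ F' ↔ φ n * x0 ∈ F := fun n => Finset.mem_preimage
  have hcard : F'.card = (F.filter fun x => c x = c x0).card := by
    refine Finset.card_bij (fun n _ => φ n * x0) ?_ (fun n _ m _ h => hinj h) ?_
    · intro n hn
      rw [Finset.mem_filter]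
      exact ⟨(hmem n).1 hn, ((hc _ _).2 ⟨n, rfl⟩).symm⟩
    · intro x hx
      rw [Finset.mem_filter] at hx
      obtain ⟨n, hn⟩ := (hc _ _).1 hx.2.symm
      exact ⟨n, (hmem n).2 (by rw [hn]; exact hx.1), hn⟩
  refine ⟨F', ⟨1, (hmem 1).2 (by rw [map_one, one_mul]; exact hx0)⟩, fun s hs => ?_⟩
  have h3 : {x | x ∈ F' ∧ s * x ∉ F'} = ((F'.filter fun x => s * x ∉ F' : Finset N) : Set N) := by
    ext x
    simp
  rw [h3, Set.ncard_coe_finset, hcard]
  have h4 : (F'.filter fun x => s * x ∉ F').card =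
      ((F.filter fun x => φ s * x ∉ F).filter fun x => c x = c x0).card := by
    refine Finset.card_bij (fun n _ => φ n * x0) ?_ (fun n _ m _ h => hinj h) ?_
    · intro n hn
      rw [Finset.mem_filter] at hn
      rw [Finset.mem_filter, Finset.mem_filter]
      refine ⟨⟨(hmem n).1 hn.1, fun h => hn.2 ((hmem _).2 ?_)⟩, ((hc _ _).2 ⟨n, rfl⟩).symm⟩
      rw [map_mul, mul_assoc]
      exact h
    · intro x hx
      rw [Finset.mem_filter, Finset.mem_filter] at hx
      obtain ⟨n, hn⟩ := (hc _ _).1 hx.2.symm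
      refine ⟨n, ?_, hn⟩
      rw [Finset.mem_filter]
      refine ⟨(hmem n).2 (by rw [hn]; exact hx.1.1), fun h => hx.1.2 ?_⟩
      have h5 := (hmem _).1 h
      rwa [map_mul, mul_assoc, hn] at h5
  rw [h4]
  refine le_trans ?_ hlt.le
  exact Finset.single_le_sum (f := fun s => (((F.filter fun x => φ s * x ∉ F).filter
    fun x => c x = c x0).card : ℝ)) (fun _ _ => Nat.cast_nonneg _) hs

theorem not_amenable_of_le {G : Type} [Group G] {N S : Subgroup G} (h : N ≤ S) (hN : ¬ Amenable N) :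
    ¬ Amenable S :=
  fun hS => hN (amenable_of_inj (Subgroup.inclusion h) (Subgroup.inclusion_injective h) hS)

theorem amenable_conj {G : Type} [Group G] {S : Subgroup G} (g : G) (h : ¬ Amenable S) :
    ¬ Amenable ↥(S.map (MulAut.conj g).toMonoidHom) := by
  intro hc
  apply h
  refine amenable_of_inj (S.equivMapOfInjective (MulAut.conj g).toMonoidHom ?_).toMonoidHom
    (MulEquiv.injective _) hc
  exact (MulAut.conj g).injective

section

variable {G H : Type} [Group G] [NormedAddCommGroup H] [InnerProductSpace ℂ H] (π : Rep G H)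
  (b : G → H)

/-- the affine action -/
def al (g : G) (v : H) : H := π.hom g v - b g

variable {π b} (hb : IsCoc π b)

include hb

lemma al_mul (g h : G) (v : H) : al π b (g * h) v = al π b g (al π b h v) := by
  unfold al
  rw [hb, map_sub, map_mul]
  change π.hom g (π.hom h v) - _ = _
  abel

lemma al_one (v : H) : al π b 1 v = v := by
  unfold al
  rw [coc_one π hb, map_one, sub_zero]
  rfl

lemma al_inv (g : G) (v : H) : al π b g⁻¹ (al π b g v) = v := by
  rw [← al_mul hb, inv_mul_cancel, al_one hb]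

omit hb in
lemma al_eq_iff (g : G) (w : H) : al π b g w = w ↔ b g = π.hom g w - w := by
  unfold al
  constructor
  · intro h
    rw [sub_eq_iff_eq_add] at h
    rw [h]
    abel
  · intro h
    rw [h]
    abel

/-- the stabilizer of a point -/
def St (w : H) : Subgroup G where
  carrier := {g | al π b g w = w}
  one_mem' := al_one hb w
  mul_mem' := by
    intro g h hg hh
    change al π b (g * h) w = w
    change al π b g w = w at hg
    change al π b h w = w at hh
    rw [al_mul hb, hh, hg]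
  inv_mem' := by
    intro g hg
    change al π b g⁻¹ w = w
    change al π b g w = w at hg
    conv_lhs => rw [← hg]
    exact al_inv hb g w

omit hb in
lemma mem_St {hb : IsCoc π b} (w : H) (g : G) : g ∈ St hb w ↔ al π b g w = w := Iff.rfl

lemma mem_St' (w : H) (g : G) : g ∈ St hb w ↔ b g = π.hom g w - w := by
  rw [mem_St, al_eq_iff]

/-- a fixed point of a nonamenable subgroup is unique -/
lemma uniq (hπ : Tempered π) {N : Subgroup G} (hN : ¬ Amenable N) {w w' : H} (h : N ≤ St hb w)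
    (h' : N ≤ St hb w') : w = w' := by
  have h1 := no_inv π hπ N (fun h => hN (Pool.Agent.Q169.PT.Br.folner h)) (w - w') (fun n hn => by
    have h2 := (mem_St' hb w n).1 (h hn)
    have h3 := (mem_St' hb w' n).1 (h' hn)
    rw [map_sub]
    have h4 : π.hom n w - w = π.hom n w' - w' := by rw [← h2, h3]
    have h5 : π.hom n w = π.hom n w' - w' + w := by rw [← h4]; abel
    rw [h5]
    abel)
  exact sub_eq_zero.1 h1

lemma conj_St (w : H) (g : G) :
    (St hb w).map (MulAut.conj g).toMonoidHom = St hb (al π b g w) := by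
  ext x
  rw [Subgroup.mem_map]
  constructor
  · rintro ⟨h, hh, rfl⟩
    rw [mem_St] at hh ⊢
    change al π b (g * h * g⁻¹) _ = _
    rw [al_mul hb, al_inv hb, al_mul hb, hh]
  · intro hx
    rw [mem_St] at hx
    refine ⟨g⁻¹ * x * g, ?_, ?_⟩
    · change al π b (g⁻¹ * x * g) w = w
      rw [al_mul hb, al_mul hb, hx, al_inv hb]
    · change g * (g⁻¹ * x * g) * g⁻¹ = x
      group

/-- a subgroup on which the cocycle is bounded has a fixed point -/
lemma exists_fix [CompleteSpace H] (N : Subgroup G) {C : ℝ} (hC : ∀ g ∈ N, ‖b g‖ ≤ C) :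
    ∃ w, N ≤ St hb w := by
  let πN : Rep N H := ⟨π.hom.comp N.subtype, fun g v => π.norm g v⟩
  obtain ⟨w, hw⟩ := Pool.Agent.Q38.PT.Ce.center N H πN (fun g => b g) (fun g h => hb g h)
    ⟨C, fun g => hC g g.2⟩
  exact ⟨w, fun g hg => (mem_St' hb w g).2 (hw ⟨g, hg⟩)⟩

lemma bdd_St (w : H) (g : G) (hg : g ∈ St hb w) : ‖b g‖ ≤ 2 * ‖w‖ := by
  rw [(mem_St' hb w g).1 hg]
  refine (norm_sub_le _ _).trans ?_
  rw [π.norm, two_mul]

/-- a fixed point of a normal subgroup `N` of `M` -/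
lemma norm_St (hπ : Tempered π) {N M : Subgroup G} (hN : ¬ Amenable N)
    (hn : ∀ m ∈ M, ∀ n ∈ N, m * n * m⁻¹ ∈ N) {w : H} (h : N ≤ St hb w) : M ≤ St hb w := by
  intro m hm
  rw [mem_St]
  apply uniq hb hπ hN _ h
  intro n hn'
  rw [← conj_St hb]
  refine ⟨m⁻¹ * n * m, h ?_, ?_⟩
  · have := hn m⁻¹ (M.inv_mem hm) n hn'
    simpa using this
  · change m * (m⁻¹ * n * m) * m⁻¹ = n
    group

/-- **the spectral gap argument**: a cocycle of a tempered representation is bounded on the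
centralizer of a nonamenable subgroup -/
theorem bdd_centralizer (hπ : Tempered π) (A : Subgroup G) (hA : ¬ Amenable A) :
    ∃ C, ∀ g, (∀ a ∈ A, a * g = g * a) → ‖b g‖ ≤ C := by
  obtain ⟨S, K, hK0, hK, hS⟩ := gap (fun h => hA (Pool.Agent.Q169.PT.Br.folner h))
  have h1 : ‖T S‖ ≤ K := ContinuousLinearMap.opNorm_le_bound _ hK0 fun f => by
    rw [T_apply]; exact hS f
  have h2 := (Pool.Agent.TH38.CX.Cond.rel_norm A (rel_T A S)).trans h1
  have h3 := fun v => hπ (avg (S.map ⟨Subtype.val, Subtype.val_injective⟩)) K (fun f => by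
    rw [sum_avg, ← T_apply]
    exact ((T _).le_opNorm f).trans (mul_le_mul_of_nonneg_right h2 (norm_nonneg f))) v
  have h4 : ∀ v : H, ‖∑ s ∈ S, (v + π.hom (s : G) v)‖ ≤ K * ‖v‖ := by
    intro v
    have := h3 v
    rw [sum_avg, Finset.sum_map] at this
    exact this
  have hgap : 0 < 2 * (S.card : ℝ) - K := by linarith
  have h5 : ∀ v : H, (2 * (S.card : ℝ) - K) * ‖v‖ ≤ ∑ s ∈ S, ‖π.hom (s : G) v - v‖ := by
    intro v
    have e : ((2 * (S.card : ℝ) : ℝ) : ℂ) • v = ∑ s ∈ S, (v + π.hom (s : G) v) -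
        ∑ s ∈ S, (π.hom (s : G) v - v) := by
      rw [← Finset.sum_sub_distrib]
      have : ∀ s ∈ S, v + π.hom (s : G) v - (π.hom (s : G) v - v) = (2 : ℂ) • v := by
        intro s _
        rw [two_smul]
        abel
      rw [Finset.sum_congr rfl this, Finset.sum_const, ← Nat.cast_smul_eq_nsmul ℂ, smul_smul]
      congr 1
      push_cast
      ring
    have h6 : ‖((2 * (S.card : ℝ) : ℝ) : ℂ) • v‖ = 2 * (S.card : ℝ) * ‖v‖ := by
      rw [norm_smul, Complex.norm_real, Real.norm_of_nonneg (by positivity)]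
    have h7 : 2 * (S.card : ℝ) * ‖v‖ ≤ K * ‖v‖ + ∑ s ∈ S, ‖π.hom (s : G) v - v‖ := by
      rw [← h6, e]
      refine (norm_sub_le _ _).trans (add_le_add (h4 v) (norm_sum_le _ _))
    linarith
  refine ⟨(∑ s ∈ S, 2 * ‖b (s : G)‖) / (2 * (S.card : ℝ) - K), fun g hg => ?_⟩
  rw [le_div_iff₀ hgap, mul_comm]
  refine (h5 (b g)).trans (Finset.sum_le_sum fun s _ => ?_)
  have h8 : π.hom (s : G) (b g) - b g = π.hom g (b (s : G)) - b (s : G) := by
    have h9 : b (s : G) + π.hom (s : G) (b g) = b g + π.hom g (b (s : G)) := by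
      rw [← hb, ← hb, hg s s.2]
    have h10 : π.hom (s : G) (b g) = b g + π.hom g (b (s : G)) - b (s : G) := by
      rw [← h9]
      abel
    rw [h10]
    abel
  rw [h8]
  refine (norm_sub_le _ _).trans ?_
  rw [π.norm, two_mul]

omit hb in
/-- the restriction of a tempered representation to a subgroup is tempered -/
theorem tempered_res (hπ : Tempered π) (M : Subgroup G) :
    Tempered (⟨π.hom.comp M.subtype, fun g v => π.norm g v⟩ : Rep M H) := by
  classical
  intro c K h v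
  have hK : 0 ≤ K := by
    have h1 := h (lp.single 2 (1 : M) (1 : ℂ))
    rw [lp.norm_single (by norm_num), norm_one, mul_one] at h1
    exact (norm_nonneg _).trans h1
  set A : L2 M →L[ℂ] L2 M := ∑ g ∈ c.support, c g • lregL g with hA
  set B : L2 G →L[ℂ] L2 G := ∑ g ∈ c.support, c g • lregL (g : G) with hB
  have hAB : (A, B) ∈ Pool.Agent.TH38.CX.Cond.Gr M := by
    have e : (A, B) = ∑ g ∈ c.support, (c g • lregL g, c g • lregL (g : G)) := by
      refine Prod.ext ?_ ?_
      · rw [Prod.fst_sum]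
      · rw [Prod.snd_sum]
    rw [e]
    exact Subring.sum_mem _ fun g _ => Pool.Agent.TH38.CX.Cond.Gr_lreg M (c g) g
  have hAK : ‖A‖ ≤ K := ContinuousLinearMap.opNorm_le_bound _ hK fun f => by
    refine le_trans (le_of_eq ?_) (h f)
    congr 1
    rw [hA, sum_apply]
    rfl
  have hBK : ‖B‖ ≤ K := (Pool.Agent.TH38.CX.Cond.rel_norm M hAB.1).trans hAK
  have hsum : ∀ {E : Type} [NormedAddCommGroup E] [InnerProductSpace ℂ E] (ρ : Rep G E) (u : E),
      ρ.sum (c.mapDomain (fun g : M => (g : G))) u = ∑ g ∈ c.support, c g • ρ.hom (g : G) u := by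
    intro E _ _ ρ u
    exact Finsupp.sum_mapDomain_index (f := fun g : M => (g : G)) (s := c)
      (h := fun g a => a • ρ.hom g u) (fun g => zero_smul ℂ (ρ.hom g u))
      (fun g x y => add_smul x y (ρ.hom g u))
  have h3 := hπ (c.mapDomain (fun g : M => (g : G))) K (fun f => by
    rw [hsum]
    have e : ∑ g ∈ c.support, c g • (reg G).hom (g : G) f = B f := by
      rw [hB, sum_apply]
      rfl
    rw [e]
    exact (B.le_opNorm f).trans (mul_le_mul_of_nonneg_right hBK (norm_nonneg f))) v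
  rw [hsum] at h3
  exact h3

/-- the family -/
def Fam : Set (Subgroup G) := {S | ¬ Amenable S ∧ ∃ w, S = St hb w}

theorem fam_ne_top (hw : ∀ w, ∃ g, b g ≠ π.hom g w - w) (S : Subgroup G) (hS : S ∈ Fam hb) : S ≠ ⊤ := by
  obtain ⟨-, w, rfl⟩ := hS
  intro h
  obtain ⟨g, hg⟩ := hw w
  apply hg
  rw [← mem_St' hb, h]
  trivial

/-- a member of the family has infinite index -/
theorem fam_index [CompleteSpace H] (hw : ∀ w, ∃ g, b g ≠ π.hom g w - w) (S : Subgroup G)
    (hS : S ∈ Fam hb) : ¬ S.FiniteIndex := by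
  intro hfin
  obtain ⟨-, w, rfl⟩ := hS
  have : Finite (G ⧸ St hb w) := Subgroup.finite_quotient_of_finiteIndex
  let _ : Fintype (G ⧸ St hb w) := Fintype.ofFinite _
  obtain ⟨w', hw'⟩ := exists_fix hb ⊤ (C := ∑ q : G ⧸ St hb w, ‖b q.out‖ + 2 * ‖w‖) (fun g _ => by
    set q : G ⧸ St hb w := (g : G ⧸ St hb w) with hq
    have hs : q.out⁻¹ * g ∈ St hb w := by
      rw [← QuotientGroup.eq, QuotientGroup.out_eq']
    have e : g = q.out * (q.out⁻¹ * g) := by group
    have h1 : b g = b q.out + π.hom q.out (b (q.out⁻¹ * g)) := by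
      conv_lhs => rw [e]
      exact hb _ _
    rw [h1]
    refine (norm_add_le _ _).trans (add_le_add ?_ ?_)
    · exact Finset.single_le_sum (f := fun q : G ⧸ St hb w => ‖b q.out‖) (fun _ _ => norm_nonneg _)
        (Finset.mem_univ q)
    · rw [π.norm]
      exact bdd_St hb w _ hs)
  obtain ⟨g, hg⟩ := hw w'
  exact hg ((mem_St' hb w' g).1 (hw' (Subgroup.mem_top g)))

/-- a nonamenable subgroup without tempered cocycles is contained in a member -/
theorem fam_van [CompleteSpace H] (hπ : Tempered π) (M : Subgroup G) (hM : ¬ Amenable M)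
    (hv : ∀ (H : Type) [NormedAddCommGroup H] [InnerProductSpace ℂ H] [CompleteSpace H]
      (ρ : Pool.Agent.Q169.PT.Pub.URep M H) (c : M → H), Pool.Agent.Q169.PT.Pub.WeaklyRegular ρ →
      Pool.Agent.Q169.PT.Pub.IsCocycle ρ c → ∃ w, ∀ g, c g = ρ.act g w - w) :
    ∃ S ∈ Fam hb, M ≤ S := by
  obtain ⟨w, hw⟩ := hv H (Pool.Agent.Q169.PT.Br.toU (⟨π.hom.comp M.subtype, fun g v => π.norm g v⟩ :
    Rep M H)) (fun g => b g) (Pool.Agent.Q169.PT.Br.tempered _ (tempered_res hπ M))
    (fun g h => hb g h)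
  have h1 : M ≤ St hb w := fun g hg => (mem_St' hb w g).2 (hw ⟨g, hg⟩)
  exact ⟨St hb w, ⟨not_amenable_of_le h1 hM, w, rfl⟩, h1⟩

theorem fam_iff [CompleteSpace H] (N : Subgroup G) (hN : ¬ Amenable N) :
    (∃ C : ℝ, ∀ g ∈ N, ‖b g‖ ≤ C) ↔ ∃ S ∈ Fam hb, N ≤ S := by
  constructor
  · rintro ⟨C, hC⟩
    obtain ⟨w, hw⟩ := exists_fix hb N hC
    exact ⟨St hb w, ⟨not_amenable_of_le hw hN, w, rfl⟩, hw⟩
  · rintro ⟨S, ⟨-, w, rfl⟩, hS⟩
    exact ⟨2 * ‖w‖, fun g hg => bdd_St hb w g (hS hg)⟩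

theorem fam_conj (S : Subgroup G) (hS : S ∈ Fam hb) (g : G) :
    S.map (MulAut.conj g).toMonoidHom ∈ Fam hb := by
  refine ⟨amenable_conj g hS.1, ?_⟩
  obtain ⟨-, w, rfl⟩ := hS
  exact ⟨_, conj_St hb w g⟩

theorem fam_malnormal (hπ : Tempered π) (S : Subgroup G) (hS : S ∈ Fam hb) (g : G) (hg : g ∉ S) :
    Amenable ↥(S ⊓ S.map (MulAut.conj g).toMonoidHom) := by
  by_contra hc
  obtain ⟨-, w, rfl⟩ := hS
  apply hg
  rw [mem_St]
  apply uniq hb hπ hc _ inf_le_left
  rw [conj_St hb]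
  exact inf_le_right

theorem fam_inter (hπ : Tempered π) (S : Subgroup G) (hS : S ∈ Fam hb) (T : Subgroup G)
    (hT : T ∈ Fam hb) (hne : S ≠ T) : Amenable ↥(S ⊓ T) := by
  by_contra hc
  obtain ⟨-, w, rfl⟩ := hS
  obtain ⟨-, w', rfl⟩ := hT
  apply hne
  rw [uniq hb hπ hc inf_le_left inf_le_right]

theorem fam_normal [CompleteSpace H] (hπ : Tempered π) {N M : Subgroup G} (hN : ¬ Amenable N)
    (hn : ∀ m ∈ M, ∀ n ∈ N, m * n * m⁻¹ ∈ N) {C : ℝ} (hC : ∀ g ∈ N, ‖b g‖ ≤ C) :
    ∃ S ∈ Fam hb, N ≤ S ∧ M ≤ S := by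
  obtain ⟨w, hw⟩ := exists_fix hb N hC
  exact ⟨St hb w, ⟨not_amenable_of_le hw hN, w, rfl⟩, hw, norm_St hb hπ hN hn hw⟩

theorem fam_comm [CompleteSpace H] (hπ : Tempered π) (A B : Subgroup G) (hA : ¬ Amenable A)
    (hB : ¬ Amenable B) (hAB : ∀ a ∈ A, ∀ c ∈ B, a * c = c * a) :
    ∃ S ∈ Fam hb, A ≤ S ∧ B ≤ S := by
  obtain ⟨C, hC⟩ := bdd_centralizer hb hπ A hA
  obtain ⟨S, hS, h1, h2⟩ := fam_normal hb hπ (N := B) (M := A) hB (fun m hm n hn => by
    rw [hAB m hm n hn, mul_assoc, mul_inv_cancel, mul_one]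
    exact hn) (C := C) (fun g hg => hC g fun a ha => hAB a ha g hg)
  exact ⟨S, hS, h2, h1⟩

theorem fam_T [CompleteSpace H] (hπ : Tempered π) (M : Subgroup G) (N : Subgroup M) (hn : N.Normal)
    (hN : ¬ Amenable N) (hT : RelativeT M N) : ∃ S ∈ Fam hb, M ≤ S := by
  let πM : Rep M H := ⟨π.hom.comp M.subtype, fun g v => π.norm g v⟩
  obtain ⟨C, hC⟩ := Pool.Agent.Q169.PT.Re.bdd M N (Pool.Agent.Q169.PT.Br.rel N hT) H πM
    (fun g => b g) (fun g h => hb g h)
  obtain ⟨S, hS, -, h2⟩ := fam_normal hb hπ (N := N.map M.subtype) (M := M) (fun h => hN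
    (amenable_of_inj (N.equivMapOfInjective M.subtype M.subtype_injective).toMonoidHom
      (MulEquiv.injective _) h)) (fun m hm n hn' => by
        obtain ⟨n', hn', rfl⟩ := hn'
        exact ⟨⟨m, hm⟩ * n' * ⟨m, hm⟩⁻¹, hn.conj_mem n' hn' ⟨m, hm⟩, rfl⟩) (C := C) (fun g hg => by
        obtain ⟨n', hn', rfl⟩ := hg
        exact hC n' hn')
  exact ⟨S, hS, h2⟩

end

end Pool.Agent.L7h76.PT
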